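import Mathlib
import Pool.Agent.N753.DR.Stm7
import Pool.Agent.N753.DR.ProxE
import Pool.Agent.N225.PC.ProxM

/-!
# Project PC, part PRK: proximity to divisors over extensions (helper196)
-/

set_option autoImplicit false

namespace Pool.Agent.N196.PC

open NumberField IsDedekindDomain Module Polynomial
open Pool.Agent.N753.DR
open Pool.Agent.N262.DR (badS_finite)

/-! ### Elementary bounds -/

theorem le_exp_posLog (a : ℝ) : a ≤ Real.exp (Real.posLog a) := by
  rcases le_or_gt a 0 with h | h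
  · exact h.trans (Real.exp_pos _).le
  · calc a = Real.exp (Real.log a) := (Real.exp_log h).symm
      _ ≤ _ := Real.exp_le_exp.2 (le_max_right _ _)

section

variable {k L : Type} [Field k] [Field L] [Algebra k L] {m : ℕ}

/-- the sum of the positive parts of the logarithms of the coefficients -/
noncomputable def sg (a : AbsoluteValue L ℝ) (f : MvPolynomial (Fin m) k) : ℝ :=
  ∑ β ∈ f.support, Real.posLog (a (algebraMap k L (f.coeff β)))

theorem sg_nonneg (a : AbsoluteValue L ℝ) (f : MvPolynomial (Fin m) k) : 0 ≤ sg a f :=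
  Finset.sum_nonneg fun _ _ => Real.posLog_nonneg

theorem coef_le (a : AbsoluteValue L ℝ) (f : MvPolynomial (Fin m) k) {β : Fin m →₀ ℕ}
    (hβ : β ∈ f.support) : a (algebraMap k L (f.coeff β)) ≤ Real.exp (sg a f) := by
  refine (le_exp_posLog _).trans (Real.exp_le_exp.2 ?_)
  exact Finset.single_le_sum (f := fun β => Real.posLog (a (algebraMap k L (f.coeff β))))
    (fun _ _ => Real.posLog_nonneg) hβ

theorem term_le (a : AbsoluteValue L ℝ) (f : MvPolynomial (Fin m) k) (q : Fin m → ℕ)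
    (hq : ∀ i, f.degreeOf i ≤ q i) (x : Fin m → L) {β : Fin m →₀ ℕ} (hβ : β ∈ f.support) :
    a (algebraMap k L (f.coeff β) * ∏ i, x i ^ β i) ≤
      Real.exp (sg a f) * ∏ i, max (a (x i)) 1 ^ q i := by
  rw [map_mul, map_prod]
  refine mul_le_mul (coef_le a f hβ) ?_ (Finset.prod_nonneg fun i _ => apply_nonneg _ _)
    (Real.exp_pos _).le
  refine Finset.prod_le_prod (fun i _ => apply_nonneg _ _) fun i _ => ?_
  rw [map_pow]
  have h1 : β i ≤ q i := by
    refine le_trans ?_ (hq i)
    rw [MvPolynomial.degreeOf_eq_sup]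
    exact Finset.le_sup (f := fun m : Fin m →₀ ℕ => m i) hβ
  calc a (x i) ^ β i ≤ max (a (x i)) 1 ^ β i :=
        pow_le_pow_left₀ (apply_nonneg _ _) (le_max_left _ _) _
    _ ≤ max (a (x i)) 1 ^ q i := pow_le_pow_right₀ (le_max_right _ _) h1

theorem aeval_sum (f : MvPolynomial (Fin m) k) (x : Fin m → L) :
    MvPolynomial.aeval x f =
      ∑ β ∈ f.support, algebraMap k L (f.coeff β) * ∏ i, x i ^ β i := by
  rw [MvPolynomial.aeval_def, MvPolynomial.eval₂_eq']

theorem arch (a : AbsoluteValue L ℝ) (f : MvPolynomial (Fin m) k) (q : Fin m → ℕ)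
    (hq : ∀ i, f.degreeOf i ≤ q i) (x : Fin m → L) :
    a (MvPolynomial.aeval x f) ≤
      f.support.card * (Real.exp (sg a f) * ∏ i, max (a (x i)) 1 ^ q i) := by
  rw [aeval_sum, ← nsmul_eq_mul]
  exact (a.sum_le _ _).trans (Finset.sum_le_card_nsmul _ _ _ fun β hβ => term_le a f q hq x hβ)

theorem nonarch_sum {ι : Type} (a : AbsoluteValue L ℝ) (ha : ∀ y z, a (y + z) ≤ max (a y) (a z))
    (s : Finset ι) (g : ι → L) {B : ℝ} (hB : 0 ≤ B) (h : ∀ i ∈ s, a (g i) ≤ B) :
    a (∑ i ∈ s, g i) ≤ B := by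
  classical
  induction s using Finset.induction_on with
  | empty => simpa using hB
  | insert i s hi ih =>
    rw [Finset.sum_insert hi]
    exact (ha _ _).trans (max_le (h i (Finset.mem_insert_self _ _))
      (ih fun j hj => h j (Finset.mem_insert_of_mem hj)))

theorem nonarch (a : AbsoluteValue L ℝ) (ha : ∀ y z, a (y + z) ≤ max (a y) (a z))
    (f : MvPolynomial (Fin m) k) (q : Fin m → ℕ) (hq : ∀ i, f.degreeOf i ≤ q i)
    (x : Fin m → L) :
    a (MvPolynomial.aeval x f) ≤ Real.exp (sg a f) * ∏ i, max (a (x i)) 1 ^ q i := by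
  rw [aeval_sum]
  exact nonarch_sum a ha _ _ (by positivity) fun β hβ => term_le a f q hq x hβ

/-- the logarithm of `∏ max ^ q` -/
noncomputable def lm (a : AbsoluteValue L ℝ) (q : Fin m → ℕ) (x : Fin m → L) : ℝ :=
  ∑ i, (q i : ℝ) * Real.log (max (a (x i)) 1)

theorem prod_pos (a : AbsoluteValue L ℝ) (q : Fin m → ℕ) (x : Fin m → L) :
    0 < ∏ i, max (a (x i)) 1 ^ q i :=
  Finset.prod_pos fun i _ => pow_pos (lt_max_of_lt_right one_pos) _

theorem log_prod (a : AbsoluteValue L ℝ) (q : Fin m → ℕ) (x : Fin m → L) :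
    Real.log (∏ i, max (a (x i)) 1 ^ q i) = lm a q x := by
  rw [Real.log_prod (fun i _ => (pow_pos (lt_max_of_lt_right one_pos) _).ne')]
  exact Finset.sum_congr rfl fun i _ => Real.log_pow _ _

theorem log_quot (a : AbsoluteValue L ℝ) (q : Fin m → ℕ) (x : Fin m → L) {g : L} (hg : g ≠ 0) :
    Real.log ((∏ i, max (a (x i)) 1 ^ q i) / a g) = lm a q x - Real.log (a g) := by
  rw [Real.log_div (prod_pos a q x).ne' (a.pos hg).ne', log_prod]

theorem lm_add (a : AbsoluteValue L ℝ) (q e : Fin m → ℕ) (x : Fin m → L) :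
    lm a (fun i => q i + e i) x = lm a q x + lm a e x := by
  unfold lm
  rw [← Finset.sum_add_distrib]
  refine Finset.sum_congr rfl fun i _ => ?_
  push_cast
  ring

theorem log_arch (a : AbsoluteValue L ℝ) (f : MvPolynomial (Fin m) k) (q : Fin m → ℕ)
    (hq : ∀ i, f.degreeOf i ≤ q i) (x : Fin m → L) (hne : MvPolynomial.aeval x f ≠ 0) :
    Real.log (a (MvPolynomial.aeval x f)) ≤ Real.log f.support.card + sg a f + lm a q x := by
  have h1 := arch a f q hq x
  have h0 : (0 : ℝ) < f.support.card := by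
    have : f ≠ 0 := by
      rintro rfl
      exact hne (map_zero _)
    exact_mod_cast Finset.card_pos.2 (MvPolynomial.support_nonempty.2 this)
  have h2 := Real.log_le_log (a.pos hne) h1
  rw [Real.log_mul h0.ne' (mul_pos (Real.exp_pos _) (prod_pos a q x)).ne',
    Real.log_mul (Real.exp_pos _).ne' (prod_pos a q x).ne', Real.log_exp, log_prod] at h2
  linarith

theorem log_nonarch (a : AbsoluteValue L ℝ) (ha : ∀ y z, a (y + z) ≤ max (a y) (a z))
    (f : MvPolynomial (Fin m) k) (q : Fin m → ℕ) (hq : ∀ i, f.degreeOf i ≤ q i)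
    (x : Fin m → L) (hne : MvPolynomial.aeval x f ≠ 0) :
    Real.log (a (MvPolynomial.aeval x f)) ≤ sg a f + lm a q x := by
  have h2 := Real.log_le_log (a.pos hne) (nonarch a ha f q hq x)
  rw [Real.log_mul (Real.exp_pos _).ne' (prod_pos a q x).ne', Real.log_exp, log_prod] at h2
  exact h2

end

/-! ### The polynomial over `K` -/

theorem exists_norm {K k : Type} [Field K] [Field k] [Algebra K k] [Algebra.IsIntegral K k]
    {m : ℕ} (G : MvPolynomial (Fin m) k) (hG : G ≠ 0) :
    ∃ (Gt : MvPolynomial (Fin m) K) (H : MvPolynomial (Fin m) k), Gt ≠ 0 ∧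
      MvPolynomial.map (algebraMap K k) Gt = G * H := by
  let _ : Algebra (MvPolynomial (Fin m) K) (MvPolynomial (Fin m) k) :=
    MvPolynomial.algebraMvPolynomial
  have hint : IsIntegral (MvPolynomial (Fin m) K) G := Algebra.IsIntegral.isIntegral G
  have h := Ideal.comap_ne_bot_of_integral_mem (R := MvPolynomial (Fin m) K) hG
    (Ideal.mem_span_singleton_self G) hint
  obtain ⟨Gt, hGt, hGt0⟩ := Submodule.exists_mem_ne_zero_of_ne_bot h
  rw [Ideal.mem_comap, Ideal.mem_span_singleton] at hGt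
  obtain ⟨H, hH⟩ := hGt
  exact ⟨Gt, H, hGt0, hH⟩

theorem degreeOf_map_inj {K k : Type} [Field K] [Field k] [Algebra K k] {m : ℕ}
    (P : MvPolynomial (Fin m) K) (i : Fin m) :
    (MvPolynomial.map (algebraMap K k) P).degreeOf i = P.degreeOf i := by
  rw [MvPolynomial.degreeOf_eq_sup, MvPolynomial.degreeOf_eq_sup,
    MvPolynomial.support_map_of_injective _ (algebraMap K k).injective]

/-! ### Primes -/

theorem exists_prime_of_mem {R : Type} [CommRing R] {I : Ideal R} (hI : I.IsPrime) :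
    ∀ n : ℕ, n ≠ 0 → (n : R) ∈ I → ∃ p : ℕ, p.Prime ∧ (p : R) ∈ I := by
  intro n
  induction n using Nat.recOnMul with
  | zero => intro h; exact absurd rfl h
  | one =>
    intro _ h
    rw [Nat.cast_one] at h
    exact absurd ((Ideal.eq_top_iff_one _).2 h) hI.ne_top
  | prime p hp => intro _ h; exact ⟨p, hp, h⟩
  | mul a b ha hb =>
    intro h0 h
    have ha0 : a ≠ 0 := by rintro rfl; simp at h0
    have hb0 : b ≠ 0 := by rintro rfl; simp at h0
    rw [Nat.cast_mul] at h
    rcases hI.mem_or_mem h with h | h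
    · exact ha ha0 h
    · exact hb hb0 h

theorem exists_prime {k : Type} [Field k] [NumberField k] (v : HeightOneSpectrum (𝓞 k)) :
    ∃ p : ℕ, p.Prime ∧ (p : 𝓞 k) ∈ v.asIdeal :=
  exists_prime_of_mem v.isPrime (Ideal.absNorm v.asIdeal)
    (fun h => v.ne_bot (Ideal.absNorm_eq_zero_iff.1 h)) (Ideal.absNorm_mem _)

/-! ### Sums over the places -/

section

variable {L : Type} [Field L] [NumberField L]

theorem supp_mk (z : L) : (fun v : HeightOneSpectrum (𝓞 L) =>
    Real.posLog (FinitePlace.mk v z)).HasFiniteSupport :=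
  (Pool.Agent.N753.DR.ProxE.fin_supp z).preimage
    (FinitePlace.equivHeightOneSpectrum.symm.injective.injOn)

theorem ht_eq (z : L) : Height.logHeight₁ z =
    (∑ w : InfinitePlace L, (w.mult : ℝ) * Real.posLog (w z)) +
      ∑ᶠ v : HeightOneSpectrum (𝓞 L), Real.posLog (FinitePlace.mk v z) := by
  rw [NumberField.logHeight₁_eq]
  congr 1
  exact (finsum_comp_equiv FinitePlace.equivHeightOneSpectrum.symm).symm

variable {k : Type} [Field k] [NumberField k] [Algebra k L] {m : ℕ}

/-- `sg` at a finite place -/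
theorem sg_fin (f : MvPolynomial (Fin m) k) : (fun v : HeightOneSpectrum (𝓞 L) =>
    sg (FinitePlace.mk v).1 f).HasFiniteSupport ∧
    (∑ w : InfinitePlace L, (w.mult : ℝ) * sg w.1 f) +
      ∑ᶠ v : HeightOneSpectrum (𝓞 L), sg (FinitePlace.mk v).1 f =
      finrank k L * ∑ β ∈ f.support, Height.logHeight₁ (f.coeff β) := by
  have hs : ∀ β ∈ f.support, (fun v : HeightOneSpectrum (𝓞 L) =>
      Real.posLog ((FinitePlace.mk v).1 (algebraMap k L (f.coeff β)))).HasFiniteSupport :=
    fun β _ => supp_mk (algebraMap k L (f.coeff β))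
  refine ⟨?_, ?_⟩
  · have h1 : (Function.support fun v : HeightOneSpectrum (𝓞 L) => sg (FinitePlace.mk v).1 f) ⊆
        ⋃ β ∈ f.support, Function.support fun v : HeightOneSpectrum (𝓞 L) =>
          Real.posLog ((FinitePlace.mk v).1 (algebraMap k L (f.coeff β))) := by
      intro v hv
      rw [Function.mem_support] at hv
      obtain ⟨β, hβ, h⟩ := Finset.exists_ne_zero_of_sum_ne_zero hv
      exact Set.mem_biUnion hβ h
    exact (Set.Finite.biUnion f.support.finite_toSet hs).subset h1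
  · have h2 : ∑ᶠ v : HeightOneSpectrum (𝓞 L), sg (FinitePlace.mk v).1 f =
        ∑ β ∈ f.support, ∑ᶠ v : HeightOneSpectrum (𝓞 L),
          Real.posLog ((FinitePlace.mk v).1 (algebraMap k L (f.coeff β))) :=
      finsum_sum_comm _ _ hs
    have h3 : ∑ w : InfinitePlace L, (w.mult : ℝ) * sg w.1 f =
        ∑ β ∈ f.support, ∑ w : InfinitePlace L, (w.mult : ℝ) *
          Real.posLog (w.1 (algebraMap k L (f.coeff β))) := by
      rw [Finset.sum_comm]
      exact Finset.sum_congr rfl fun w _ => by unfold sg; rw [Finset.mul_sum]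
    rw [h2, h3, ← Finset.sum_add_distrib, Finset.mul_sum]
    refine Finset.sum_congr rfl fun β _ => ?_
    rw [← Pool.Agent.N572.DR.Inv.ht_ext, ht_eq]
    rfl

theorem finrank_le : (finrank k L : ℝ) ≤ finrank ℚ L := by
  have e1 : finrank ℚ k * finrank k L = finrank ℚ L := finrank_mul_finrank ℚ k L
  have e2 : 0 < finrank ℚ k := finrank_pos
  have e3 : finrank k L ≤ finrank ℚ L := by
    rw [← e1]
    exact Nat.le_mul_of_pos_left _ e2
  exact_mod_cast e3

theorem sg_total_le (f : MvPolynomial (Fin m) k) :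
    (∑ w : InfinitePlace L, (w.mult : ℝ) * sg w.1 f) +
      ∑ᶠ v : HeightOneSpectrum (𝓞 L), sg (FinitePlace.mk v).1 f ≤
      finrank ℚ L * ∑ β ∈ f.support, Height.logHeight₁ (f.coeff β) := by
  rw [(sg_fin f).2]
  exact mul_le_mul_of_nonneg_right finrank_le
    (Finset.sum_nonneg fun β _ => Height.zero_le_logHeight₁ _)

theorem sg_fin_le (f : MvPolynomial (Fin m) k) :
    ∑ᶠ v : HeightOneSpectrum (𝓞 L), sg (FinitePlace.mk v).1 f ≤
      finrank ℚ L * ∑ β ∈ f.support, Height.logHeight₁ (f.coeff β) := by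
  refine le_trans ?_ (sg_total_le (L := L) f)
  have : 0 ≤ ∑ w : InfinitePlace L, (w.mult : ℝ) * sg w.1 f :=
    Finset.sum_nonneg fun w _ => mul_nonneg (Nat.cast_nonneg _) (sg_nonneg _ _)
  linarith

end

/-! ### Comparison -/

theorem fp_add {L : Type} [Field L] [NumberField L] (v : HeightOneSpectrum (𝓞 L)) (y z : L) :
    (FinitePlace.mk v).1 (y + z) ≤ max ((FinitePlace.mk v).1 y) ((FinitePlace.mk v).1 z) :=
  FinitePlace.add_le (FinitePlace.mk v) y z

theorem compare {K k L : Type} [Field K] [NumberField K] [Field k] [NumberField k] [Field L]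
    [NumberField L] [Algebra K k] [Algebra K L] [Algebra k L] [IsScalarTower K k L] {m : ℕ}
    (Z : HeightOneSpectrum (𝓞 L) → Prop) (St : Finset ℕ) (hSt : ∀ p ∈ St, p.Prime)
    (hZ : ∀ v, Z v → ∃ p ∈ St, (p : 𝓞 L) ∈ v.asIdeal) (q e : Fin m → ℕ)
    (G H : MvPolynomial (Fin m) k) (Gt : MvPolynomial (Fin m) K)
    (hmap : MvPolynomial.map (algebraMap K k) Gt = G * H) (he : ∀ i, H.degreeOf i ≤ e i)
    (hGt : ∀ i, Gt.degreeOf i ≤ q i + e i) (x : Fin m → L)
    (hg : MvPolynomial.aeval x G ≠ 0) (hgt : MvPolynomial.aeval x Gt ≠ 0) :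
    prZ Z q x (MvPolynomial.aeval x G) ≤
      proxM St (fun i => q i + e i) Gt x + finrank ℚ L * (Real.log H.support.card +
        ∑ β ∈ H.support, Height.logHeight₁ (H.coeff β) +
        ∑ β ∈ Gt.support, Height.logHeight₁ (Gt.coeff β)) := by
  classical
  have hprod : MvPolynomial.aeval x Gt = MvPolynomial.aeval x G * MvPolynomial.aeval x H := by
    rw [← MvPolynomial.aeval_map_algebraMap k, hmap, map_mul]
  have hη : MvPolynomial.aeval x H ≠ 0 := by
    intro h
    rw [h, mul_zero] at hprod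
    exact hgt hprod
  have key : ∀ a : AbsoluteValue L ℝ,
      Real.log ((∏ i, max (a (x i)) 1 ^ q i) / a (MvPolynomial.aeval x G)) =
      Real.log ((∏ i, max (a (x i)) 1 ^ (q i + e i)) / a (MvPolynomial.aeval x Gt)) +
        (Real.log (a (MvPolynomial.aeval x H)) - lm a e x) := by
    intro a
    rw [log_quot a q x hg, log_quot a (fun i => q i + e i) x hgt, lm_add, hprod, map_mul,
      Real.log_mul (a.pos hg).ne' (a.pos hη).ne']
    ring
  have hinf : ∀ w : InfinitePlace L, (w.mult : ℝ) *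
      Real.log ((∏ i, max (w (x i)) 1 ^ q i) / w (MvPolynomial.aeval x G)) ≤
      (w.mult : ℝ) * Real.log ((∏ i, max (w (x i)) 1 ^ (q i + e i)) /
        w (MvPolynomial.aeval x Gt)) +
      ((w.mult : ℝ) * Real.log H.support.card + (w.mult : ℝ) * sg w.1 H) := by
    intro w
    have h1 := key w.1
    have h2 := log_arch w.1 H e he x hη
    have h3 : Real.log ((∏ i, max (w (x i)) 1 ^ q i) / w (MvPolynomial.aeval x G)) ≤
        Real.log ((∏ i, max (w (x i)) 1 ^ (q i + e i)) / w (MvPolynomial.aeval x Gt)) +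
        (Real.log H.support.card + sg w.1 H) := by
      refine h1.le.trans ?_
      have h4 : Real.log (w.1 (MvPolynomial.aeval x H)) - lm w.1 e x ≤
          Real.log H.support.card + sg w.1 H := by linarith
      exact add_le_add le_rfl h4
    have h5 := mul_le_mul_of_nonneg_left h3 (Nat.cast_nonneg w.mult : (0 : ℝ) ≤ w.mult)
    linarith
  have hI := Finset.sum_le_sum fun w (_ : w ∈ (Finset.univ : Finset (InfinitePlace L))) => hinf w
  rw [Finset.sum_add_distrib, Finset.sum_add_distrib, ← Finset.sum_mul, ← Nat.cast_sum,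
    InfinitePlace.sum_mult_eq] at hI
  -- the finite places
  have hfin : {v : HeightOneSpectrum (𝓞 L) | ∃ p ∈ St, (p : 𝓞 L) ∈ v.asIdeal}.Finite :=
    (badS_finite (K := L) St).subset fun v ⟨p, hp, hv⟩ => ⟨p, hp, (hSt p hp).ne_zero, hv⟩
  have hle : ∀ v : HeightOneSpectrum (𝓞 L),
      (if Z v then
        Real.log ((∏ i, max (FinitePlace.mk v (x i)) 1 ^ q i) /
          FinitePlace.mk v (MvPolynomial.aeval x G)) else 0) ≤
      (if ∃ p ∈ St, (p : 𝓞 L) ∈ v.asIdeal then
        Real.log ((∏ i, max (FinitePlace.mk v (x i)) 1 ^ (q i + e i)) /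
          FinitePlace.mk v (MvPolynomial.aeval x Gt)) else 0) +
      (sg (FinitePlace.mk v).1 H + sg (FinitePlace.mk v).1 Gt) := by
    intro v
    have s1 := sg_nonneg (FinitePlace.mk v).1 H
    have s2 := sg_nonneg (FinitePlace.mk v).1 Gt
    have h1 := key (FinitePlace.mk v).1
    have h2 := log_nonarch (FinitePlace.mk v).1 (fp_add v) H e he x hη
    have h3 := log_nonarch (FinitePlace.mk v).1 (fp_add v) Gt (fun i => q i + e i) hGt x hgt
    have h4 := log_quot (FinitePlace.mk v).1 (fun i => q i + e i) x hgt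
    by_cases c1 : Z v
    · rw [if_pos c1, if_pos (hZ v c1)]
      refine h1.le.trans ?_
      have h5 : Real.log ((FinitePlace.mk v).1 (MvPolynomial.aeval x H)) -
          lm (FinitePlace.mk v).1 e x ≤ sg (FinitePlace.mk v).1 H + sg (FinitePlace.mk v).1 Gt := by
        linarith
      exact add_le_add le_rfl h5
    · rw [if_neg c1]
      by_cases c2 : ∃ p ∈ St, (p : 𝓞 L) ∈ v.asIdeal
      · rw [if_pos c2]
        have h5 : -sg (FinitePlace.mk v).1 Gt ≤
            Real.log ((∏ i, max (FinitePlace.mk v (x i)) 1 ^ (q i + e i)) /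
              FinitePlace.mk v (MvPolynomial.aeval x Gt)) := by
          refine le_trans ?_ h4.ge
          linarith
        linarith
      · rw [if_neg c2]
        linarith
  have f1 : (fun v : HeightOneSpectrum (𝓞 L) =>
      if Z v then
        Real.log ((∏ i, max (FinitePlace.mk v (x i)) 1 ^ q i) /
          FinitePlace.mk v (MvPolynomial.aeval x G)) else 0).HasFiniteSupport :=
    hfin.subset fun v hv => by
      rw [Function.mem_support] at hv
      by_contra hcon
      exact hv (if_neg fun h => hcon (hZ v h))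
  have f2 : (fun v : HeightOneSpectrum (𝓞 L) =>
      if ∃ p ∈ St, (p : 𝓞 L) ∈ v.asIdeal then
        Real.log ((∏ i, max (FinitePlace.mk v (x i)) 1 ^ (q i + e i)) /
          FinitePlace.mk v (MvPolynomial.aeval x Gt)) else 0).HasFiniteSupport :=
    hfin.subset fun v hv => by
      rw [Function.mem_support] at hv
      by_contra hcon
      exact hv (if_neg hcon)
  have f3 := (sg_fin (L := L) H).1
  have f4 := (sg_fin (L := L) Gt).1
  have f5 : (fun v : HeightOneSpectrum (𝓞 L) =>
      sg (FinitePlace.mk v).1 H + sg (FinitePlace.mk v).1 Gt).HasFiniteSupport :=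
    (f3.union f4).subset (Function.support_add _ _)
  have f6 : (fun v : HeightOneSpectrum (𝓞 L) =>
      (if ∃ p ∈ St, (p : 𝓞 L) ∈ v.asIdeal then
        Real.log ((∏ i, max (FinitePlace.mk v (x i)) 1 ^ (q i + e i)) /
          FinitePlace.mk v (MvPolynomial.aeval x Gt)) else 0) +
      (sg (FinitePlace.mk v).1 H + sg (FinitePlace.mk v).1 Gt)).HasFiniteSupport :=
    (f2.union f5).subset (Function.support_add _ _)
  have hF := finsum_le_finsum' f1 f6 hle
  rw [finsum_add_distrib f2 f5, finsum_add_distrib f3 f4] at hF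
  have t1 := sg_total_le (L := L) H
  have t2 := sg_fin_le (L := L) Gt
  unfold prZ proxM
  rw [mul_add, mul_add]
  refine (add_le_add hI hF).trans ?_
  linarith

/-- **PC/PRK** -/
theorem t (h1 : StmTriv) (h2 : StmHtMv) : StmPrk := by
  classical
  intro K _ _ m r E hE k _ _ _ q G hG0 hGq S κ hκ
  have : FiniteDimensional K k := Module.Finite.of_restrictScalars_finite ℚ K k
  obtain ⟨Gt, H, hGt0, hmap⟩ := exists_norm (K := K) G hG0
  choose pr hpr hprm using fun v : HeightOneSpectrum (𝓞 k) => exists_prime v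
  have hSt : ∀ p ∈ S.image pr, p.Prime := by
    intro p hp
    rw [Finset.mem_image] at hp
    obtain ⟨v, -, rfl⟩ := hp
    exact hpr v
  have hS : ∀ v ∈ S, ∃ p ∈ S.image pr, (p : 𝓞 k) ∈ v.asIdeal := fun v hv =>
    ⟨pr v, Finset.mem_image_of_mem _ hv, hprm v⟩
  have hGtd : ∀ i, Gt.degreeOf i ≤ q i + H.degreeOf i := by
    intro i
    rw [← degreeOf_map_inj (k := k) Gt i, hmap]
    exact (MvPolynomial.degreeOf_mul_le i G H).trans (Nat.add_le_add_right (hGq i) _)
  obtain ⟨C1, hC1, hprox⟩ := hE (fun i => q i + H.degreeOf i) Gt hGt0 hGtd (S.image pr) hSt κ hκ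
  obtain ⟨C2, hC2, hht⟩ := h2 k m G
  set C3 : ℝ := Real.log H.support.card + ∑ β ∈ H.support, Height.logHeight₁ (H.coeff β) +
        ∑ β ∈ Gt.support, Height.logHeight₁ (Gt.coeff β) with hC3
  have hC30 : 0 ≤ C3 := by
    have a1 : 0 ≤ Real.log H.support.card := Real.log_natCast_nonneg _
    have a2 : 0 ≤ ∑ β ∈ H.support, Height.logHeight₁ (H.coeff β) :=
      Finset.sum_nonneg fun β _ => Height.zero_le_logHeight₁ _
    have a3 : 0 ≤ ∑ β ∈ Gt.support, Height.logHeight₁ (Gt.coeff β) :=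
      Finset.sum_nonneg fun β _ => Height.zero_le_logHeight₁ _
    linarith
  set Q : ℝ := ∑ i, (q i : ℝ) with hQ
  have hQ0 : 0 ≤ Q := Finset.sum_nonneg fun i _ => Nat.cast_nonneg _
  refine ⟨C1 + C3 + ((Q + C2) * C1 + C2), by positivity, ?_⟩
  intro L _ _ _ _ _ x hdeg hxE hg
  obtain ⟨g1, g2⟩ := hprox L x hdeg hxE
  have hh0 : 0 ≤ ∑ i, Height.logHeight₁ (x i) :=
    Finset.sum_nonneg fun i _ => Height.zero_le_logHeight₁ _
  have hL0 : (0 : ℝ) ≤ finrank ℚ L := Nat.cast_nonneg _
  have hκh := mul_nonneg hκ.le hh0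
  by_cases hgt : MvPolynomial.aeval x Gt = 0
  · have a1 := g2 hgt
    have a2 := h1 L m (fun v => ∃ p ∈ S, v.asIdeal.comap (algebraMap (𝓞 k) (𝓞 L)) = p.asIdeal)
      q x (MvPolynomial.aeval x G) hg
    have a3 := hht L x
    have a4 : ∑ i, (q i : ℝ) * Height.logHeight₁ (x i) ≤ Q * ∑ i, Height.logHeight₁ (x i) := by
      rw [Finset.mul_sum]
      refine Finset.sum_le_sum fun i _ => mul_le_mul_of_nonneg_right ?_
        (Height.zero_le_logHeight₁ _)
      exact Finset.single_le_sum (f := fun i => (q i : ℝ)) (fun i _ => Nat.cast_nonneg _)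
        (Finset.mem_univ i)
    have a5 : (Q + C2) * ∑ i, Height.logHeight₁ (x i) ≤ (Q + C2) * (finrank ℚ L * C1) :=
      mul_le_mul_of_nonneg_left a1 (by positivity)
    have a6 : 0 ≤ (finrank ℚ L : ℝ) * (C1 + C3) := by positivity
    nlinarith
  · have a1 := g1 hgt
    have hZ : ∀ v : HeightOneSpectrum (𝓞 L),
        (∃ p ∈ S, v.asIdeal.comap (algebraMap (𝓞 k) (𝓞 L)) = p.asIdeal) →
        ∃ p ∈ S.image pr, (p : 𝓞 L) ∈ v.asIdeal := by
      rintro v ⟨u, hu, huv⟩
      obtain ⟨p, hp, hpu⟩ := hS u hu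
      refine ⟨p, hp, ?_⟩
      rw [← huv, Ideal.mem_comap, map_natCast] at hpu
      exact hpu
    have a2 := compare (K := K) (fun v => ∃ p ∈ S, v.asIdeal.comap (algebraMap (𝓞 k) (𝓞 L)) =
      p.asIdeal) (S.image pr) hSt hZ q (fun i => H.degreeOf i) G H Gt hmap
      (fun i => le_rfl) hGtd x hg hgt
    rw [← hC3] at a2
    have a3 : 0 ≤ (finrank ℚ L : ℝ) * ((Q + C2) * C1 + C2) := by positivity
    nlinarith

end Pool.Agent.N196.PC
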